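import Mathlib
import Pool.Agent.Helper19.GH1
set_option autoImplicit false
open scoped ComplexOrder

namespace Pool.Agent.Helper70.Gam

open Pool.Agent.Helper19.Gam

variable {A : Type} [CStarAlgebra A] {τ : A →ₗ[ℂ] ℂ}

/-- the fourth power of the 4-norm -/
noncomputable def q4 (τ : A →ₗ[ℂ] ℂ) (X : A) : ℝ := (τ ((star X * X) * (star X * X))).re

lemma re_le_cs (hτ : Tr τ) (x y : A) : (τ (star x * y)).re ≤ n2 τ x * n2 τ y :=
  (Complex.re_le_norm _).trans (cs hτ x y)

/-- one greedy step -/
lemma step (hτ : Tr τ) (X g : A) (hg : ‖g‖ ≤ 1) :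
    q4 τ (X + g) ≤ q4 τ X + 6 * n2 τ X ^ 2 + 1 ∨ q4 τ (X - g) ≤ q4 τ X + 6 * n2 τ X ^ 2 + 1 := by
  have hgs : ‖star g‖ ≤ 1 := by rw [norm_star]; exact hg
  have hXn := n2_nonneg hτ X
  -- the three estimates
  have e1 : (τ ((star X * X) * (star g * g))).re ≤ n2 τ X ^ 2 := by
    have : τ ((star X * X) * (star g * g)) = τ (star (X * star g) * (X * star g)) := by
      rw [star_mul, star_star, ← mul_assoc (star X * X), hτ.comm]
      congr 1
      noncomm_ring
    rw [this, ← n2_sq hτ]
    have h1 := n2_mul_right hτ X (star g)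
    have h2 : n2 τ (X * star g) ≤ n2 τ X := h1.trans (mul_le_of_le_one_right hXn hgs)
    have h3 := n2_nonneg hτ (X * star g)
    gcongr
  have e1' : (τ ((star g * g) * (star X * X))).re ≤ n2 τ X ^ 2 := by
    rw [hτ.comm]; exact e1
  have e2 : (τ ((star g * g) * (star g * g))).re ≤ 1 := by
    have h1 : τ ((star g * g) * (star g * g)) = τ (star (star g * g) * (star g * g)) := by
      rw [star_mul, star_star]
    rw [h1, ← n2_sq hτ]
    have h2 := n2_le_norm hτ (star g * g)
    have h3 : ‖star g * g‖ ≤ 1 := by
      rw [CStarRing.norm_star_mul_self]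
      exact mul_le_one₀ hg (norm_nonneg _) hg
    have h4 := n2_nonneg hτ (star g * g)
    nlinarith
  have hA : n2 τ (star g * X) ≤ n2 τ X :=
    (n2_mul_left hτ (star g) X).trans (mul_le_of_le_one_left hXn hgs)
  have hB : n2 τ (star X * g) ≤ n2 τ X := by
    refine (n2_mul_right hτ (star X) g).trans ?_
    rw [n2_star hτ]
    exact mul_le_of_le_one_right hXn hg
  have hA0 := n2_nonneg hτ (star g * X)
  have hB0 := n2_nonneg hτ (star X * g)
  have e3 : (τ ((star X * g) * (star X * g))).re ≤ n2 τ X ^ 2 := by
    have h1 : τ ((star X * g) * (star X * g)) = τ (star (star g * X) * (star X * g)) := by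
      rw [star_mul, star_star]
    rw [h1]
    refine (re_le_cs hτ _ _).trans ?_
    nlinarith
  have e4 : (τ ((star g * X) * (star g * X))).re ≤ n2 τ X ^ 2 := by
    have h1 : τ ((star g * X) * (star g * X)) = τ (star (star X * g) * (star g * X)) := by
      rw [star_mul, star_star]
    rw [h1]
    refine (re_le_cs hτ _ _).trans ?_
    nlinarith
  have e5 : (τ ((star X * g) * (star g * X))).re ≤ n2 τ X ^ 2 := by
    have h1 : τ ((star X * g) * (star g * X)) = τ (star (star g * X) * (star g * X)) := by
      rw [star_mul, star_star]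
    rw [h1, ← n2_sq hτ]
    gcongr
  have e6 : (τ ((star g * X) * (star X * g))).re ≤ n2 τ X ^ 2 := by
    have h1 : τ ((star g * X) * (star X * g)) = τ (star (star X * g) * (star X * g)) := by
      rw [star_mul, star_star]
    rw [h1, ← n2_sq hτ]
    gcongr
  have key : q4 τ (X + g) + q4 τ (X - g) = 2 * (q4 τ X +
      (τ ((star X * X) * (star g * g))).re + (τ ((star g * g) * (star X * X))).re +
      (τ ((star g * g) * (star g * g))).re + (τ ((star X * g) * (star X * g))).re +
      (τ ((star g * X) * (star g * X))).re + (τ ((star X * g) * (star g * X))).re +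
      (τ ((star g * X) * (star X * g))).re) := by
    have h1 : (star (X + g) * (X + g)) * (star (X + g) * (X + g)) +
        (star (X - g) * (X - g)) * (star (X - g) * (X - g)) =
        (2 : ℂ) • ((star X * X) * (star X * X) + (star X * X) * (star g * g) +
          (star g * g) * (star X * X) + (star g * g) * (star g * g) +
          (star X * g) * (star X * g) + (star g * X) * (star g * X) +
          (star X * g) * (star g * X) + (star g * X) * (star X * g)) := by
      rw [star_add, star_sub, two_smul]
      noncomm_ring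
    have h2 := congrArg (fun x => (τ x).re) h1
    simp only [map_add, map_smul, Complex.add_re, smul_eq_mul] at h2
    unfold q4
    rw [h2]
    rw [show (2 : ℂ) = ((2 : ℝ) : ℂ) by push_cast; rfl, Complex.re_ofReal_mul]
    simp only [Complex.add_re]
  by_contra hcon
  push Not at hcon
  linarith [hcon.1, hcon.2]

/-- OFFER 4a: greedy signs -/
theorem greedy (hτ : Tr τ) {C : Type} (g : C → A) (hg : ∀ c, ‖g c‖ ≤ 1)
    (horth : ∀ c c', c ≠ c' → τ (star (g c) * g c') = 0) (s : Finset C) :
    ∃ ε : C → ℂ, (∀ c, ε c = 1 ∨ ε c = -1) ∧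
      (τ ((star (∑ c ∈ s, ε c • g c) * (∑ c ∈ s, ε c • g c)) *
        (star (∑ c ∈ s, ε c • g c) * (∑ c ∈ s, ε c • g c)))).re ≤ 3 * (s.card : ℝ) ^ 2 := by
  classical
  have hn : ∀ (t : Finset C) (ε : C → ℂ), (∀ c, ε c = 1 ∨ ε c = -1) →
      n2 τ (∑ c ∈ t, ε c • g c) ^ 2 ≤ (t.card : ℝ) := by
    intro t ε hε
    have hnε : ∀ c, ‖ε c‖ = 1 := by
      intro c
      rcases hε c with h | h <;> rw [h] <;> simp
    induction t using Finset.induction_on with
    | empty => simp [n2_zero hτ]
    | insert a t ha ih =>
      rw [Finset.sum_insert ha, Finset.card_insert_of_notMem ha, add_comm (ε a • g a)]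
      have h1 := n2_sub_sq hτ (∑ c ∈ t, ε c • g c) (-(ε a • g a))
      rw [sub_neg_eq_add, n2_neg hτ] at h1
      have h2 : τ (star (∑ c ∈ t, ε c • g c) * -(ε a • g a)) = 0 := by
        rw [mul_neg, map_neg, mul_smul_comm, map_smul, star_sum, Finset.sum_mul, map_sum]
        rw [Finset.sum_eq_zero]
        · simp
        · intro c hc
          rw [star_smul, smul_mul_assoc, map_smul, horth c a (fun e => ha (e ▸ hc)), smul_zero]
      rw [h1, h2, Complex.zero_re, mul_zero, sub_zero, n2_smul hτ, hnε, one_mul]
      have h3 : n2 τ (g a) ≤ 1 := (n2_le_norm hτ _).trans (hg a)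
      have h4 := n2_nonneg hτ (g a)
      push_cast
      nlinarith
  induction s using Finset.induction_on with
  | empty => exact ⟨fun _ => 1, fun _ => Or.inl rfl, by simp⟩
  | insert a s ha ih =>
    obtain ⟨ε, hε, hq⟩ := ih
    have hns := hn s ε hε
    have hsum : ∀ e : ℂ, ∑ c ∈ insert a s, Function.update ε a e c • g c =
        (∑ c ∈ s, ε c • g c) + e • g a := by
      intro e
      rw [Finset.sum_insert ha, Function.update_self, add_comm]
      congr 1
      refine Finset.sum_congr rfl fun c hc => ?_
      have hca : c ≠ a := fun h => ha (h ▸ hc)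
      rw [Function.update_of_ne hca]
    have hcard : (((insert a s).card : ℕ) : ℝ) = (s.card : ℝ) + 1 := by
      rw [Finset.card_insert_of_notMem ha]; push_cast; rfl
    rcases step hτ (∑ c ∈ s, ε c • g c) (g a) (hg a) with h | h
    · refine ⟨Function.update ε a 1, ?_, ?_⟩
      · intro c
        by_cases hc : c = a
        · subst hc; rw [Function.update_self]; exact Or.inl rfl
        · rw [Function.update_of_ne hc]; exact hε c
      · rw [hsum, one_smul, hcard]
        unfold q4 at h
        nlinarith
    · refine ⟨Function.update ε a (-1), ?_, ?_⟩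
      · intro c
        by_cases hc : c = a
        · subst hc; rw [Function.update_self]; exact Or.inr rfl
        · rw [Function.update_of_ne hc]; exact hε c
      · rw [hsum, neg_smul, one_smul, ← sub_eq_add_neg, hcard]
        unfold q4 at h
        nlinarith

end Pool.Agent.Helper70.Gam
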