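import Mathlib
import Pool.Agent.Helper19.GH1
set_option autoImplicit false
open scoped ComplexOrder

namespace Pool.Agent.Helper70.Gam

open Pool.Agent.Helper19.Gam

variable {A : Type} [CStarAlgebra A] {τ : A →ₗ[ℂ] ℂ}

/-- truncation -/
theorem truncate (hτ : Tr τ) {X : A} {B R : ℝ} (hR : 0 < R)
    (hX : (τ ((star X * X) * (star X * X))).re ≤ B) :
    ∃ X' : A, ‖X'‖ ≤ R / 2 ∧ n2 τ (X - X') ^ 2 ≤ B / (4 * R ^ 2) := by
  let _ := CStarAlgebra.spectralOrder A
  let _ := CStarAlgebra.spectralOrderedRing A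
  set a : A := star X * X with ha
  have hsa : IsSelfAdjoint a := IsSelfAdjoint.star_mul_self X
  have h0 : 0 ≤ a := star_mul_self_nonneg X
  have hspec : ∀ t ∈ spectrum ℝ a, 0 ≤ t := fun t ht => spectrum_nonneg_of_nonneg h0 ht
  set f : ℝ → ℝ := fun t => (1 + |t| / R ^ 2)⁻¹ with hf
  have hpos : ∀ t : ℝ, 0 < 1 + |t| / R ^ 2 := fun t => by positivity
  have hfc : Continuous f := by
    apply Continuous.inv₀
    · fun_prop
    · exact fun t => (hpos t).ne'
  have hfsa : IsSelfAdjoint (cfc f a) := cfc_predicate f a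
  -- products
  have hprod : ∀ g : ℝ → ℝ, Continuous g → cfc g a * a * cfc g a = cfc (fun t => g t * t * g t) a := by
    intro g hg
    have e1 : a = cfc (fun t : ℝ => t) a := (cfc_id' ℝ a).symm
    conv_lhs => rw [e1]
    rw [cfc_id' ℝ a]
    rw [cfc_mul (fun t => g t * t) g a (by fun_prop) (by fun_prop),
      cfc_mul g (fun t => t) a (by fun_prop) (by fun_prop), cfc_id' ℝ a]
  refine ⟨X * cfc f a, ?_, ?_⟩
  · have h1 : star (X * cfc f a) * (X * cfc f a) = cfc (fun t => f t * t * f t) a := by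
      rw [← hprod f hfc, star_mul, hfsa.star_eq, ha]
      noncomm_ring
    have h2 : ‖X * cfc f a‖ * ‖X * cfc f a‖ ≤ (R / 2) * (R / 2) := by
      rw [← CStarRing.norm_star_mul_self, h1]
      apply norm_cfc_le (by positivity)
      intro t ht
      have ht0 := hspec t ht
      rw [Real.norm_of_nonneg (by have := (inv_pos.2 (hpos t)).le; positivity)]
      simp only [hf]
      rw [abs_of_nonneg ht0]
      have hp : 0 < 1 + t / R ^ 2 := by positivity
      have e : (R / 2) * (R / 2) - (1 + t / R ^ 2)⁻¹ * t * (1 + t / R ^ 2)⁻¹ =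
          (R / 2) ^ 2 * ((1 - t / R ^ 2) ^ 2 * ((1 + t / R ^ 2)⁻¹) ^ 2) := by
        field_simp
        ring
      have e2 : 0 ≤ (R / 2) ^ 2 * ((1 - t / R ^ 2) ^ 2 * ((1 + t / R ^ 2)⁻¹) ^ 2) := by positivity
      linarith
    exact abs_le_of_sq_le_sq' (by nlinarith) (by positivity) |>.2
  · rw [n2_sq hτ]
    have h1 : star (X - X * cfc f a) * (X - X * cfc f a) =
        cfc (fun t => (1 - f t) * t * (1 - f t)) a := by
      rw [← hprod (fun t => 1 - f t) (by fun_prop), cfc_sub _ _ a (by fun_prop) (by fun_prop),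
        cfc_const_one ℝ a]
      rw [star_sub, star_mul, hfsa.star_eq, ha]
      noncomm_ring
    rw [h1]
    have h2 : 0 ≤ cfc (fun t => t * t / (4 * R ^ 2) - (1 - f t) * t * (1 - f t)) a := by
      apply cfc_nonneg
      intro t ht
      have ht0 := hspec t ht
      simp only [hf]
      rw [abs_of_nonneg ht0]
      have hp : 0 < 1 + t / R ^ 2 := by positivity
      have e : t * t / (4 * R ^ 2) - (1 - (1 + t / R ^ 2)⁻¹) * t * (1 - (1 + t / R ^ 2)⁻¹) =
          t ^ 2 / (4 * R ^ 2) * ((1 - t / R ^ 2) ^ 2 * ((1 + t / R ^ 2)⁻¹) ^ 2) := by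
        field_simp
        ring
      rw [e]
      positivity
    obtain ⟨c, hc⟩ := CStarAlgebra.nonneg_iff_eq_star_mul_self.1 h2
    have h3 := (Complex.nonneg_iff.1 (hτ.nonneg c)).1
    rw [← hc, cfc_sub _ _ a (by fun_prop) (by fun_prop), map_sub, Complex.sub_re] at h3
    have h4 : cfc (fun t : ℝ => t * t / (4 * R ^ 2)) a = ((4 * R ^ 2)⁻¹ : ℂ) • (a * a) := by
      have e1 : (fun t : ℝ => t * t / (4 * R ^ 2)) = fun t => (4 * R ^ 2)⁻¹ • (t * t) := by
        funext t; rw [smul_eq_mul]; ring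
      rw [e1, cfc_smul _ _ a (by fun_prop), cfc_mul (fun t : ℝ => t) (fun t => t) a
        (by fun_prop) (by fun_prop), cfc_id' ℝ a, ← Complex.coe_smul]
      push_cast
      rfl
    rw [h4, map_smul, smul_eq_mul] at h3
    have h5 : (((4 * R ^ 2)⁻¹ : ℂ) * τ (a * a)).re = (4 * R ^ 2)⁻¹ * (τ (a * a)).re := by
      have : ((4 * R ^ 2)⁻¹ : ℂ) = (((4 * R ^ 2)⁻¹ : ℝ) : ℂ) := by push_cast; rfl
      rw [this, Complex.re_ofReal_mul]
    rw [h5] at h3
    have h6 : (4 * R ^ 2)⁻¹ * (τ (a * a)).re ≤ (4 * R ^ 2)⁻¹ * B :=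
      mul_le_mul_of_nonneg_left hX (by positivity)
    rw [div_eq_inv_mul]
    linarith

end Pool.Agent.Helper70.Gam
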