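import Mathlib
import Pool.Agent.Helper19.GH1
import Pool.Agent.Helper70.Gam.Greedy
import Pool.Agent.Helper70.Gam.Trunc
set_option autoImplicit false
open scoped ComplexOrder

namespace Pool.Agent.Helper70.Gam

open Pool.Agent.Helper19.Gam

variable {A : Type} [CStarAlgebra A] {τ : A →ₗ[ℂ] ℂ}

/-- a tower of Pauli pairs with a unitary representation of sign characters -/
structure Tower (L : ℕ) (l : List A) (u : Fin L → A) (π : (Fin L → Bool) → A) : Prop where
  pw : PW l
  len : l.length = 2 * L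
  symm : ∀ i, IsSymm' (u i)
  comm : ∀ i j, Commute (u i) (u j)
  uni : ∀ c, π c ∈ unitary A
  sgn : ∀ c i, u i * π c = (if c i then (-1:ℂ) else 1) • (π c * u i)
  cu : ∀ y, CL l y → ∀ i, Commute (u i) y
  cp : ∀ y, CL l y → ∀ c, Commute (π c) y

lemma nontrivial_of_tr (hτ : Tr τ) : Nontrivial A := by
  refine ⟨⟨1, 0, fun e => ?_⟩⟩
  have := hτ.one
  rw [e, map_zero] at this
  exact zero_ne_one this

lemma norm_uni (hτ : Tr τ) {x : A} (hx : x ∈ unitary A) : ‖x‖ ≤ 1 := by
  have := nontrivial_of_tr hτ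
  exact (CStarRing.norm_of_mem_unitary hx).le

lemma cm_neg_comm (x y : A) : cm x y = - cm y x := by unfold cm; noncomm_ring

lemma n2_cm_comm (hτ : Tr τ) (x y : A) : n2 τ (cm x y) = n2 τ (cm y x) := by
  rw [cm_neg_comm, n2_neg hτ]

lemma n2_cm_le_left (hτ : Tr τ) (x y : A) : n2 τ (cm x y) ≤ 2 * ‖x‖ * n2 τ y := by
  unfold cm
  have h1 := n2_sub hτ (x * y) (y * x)
  have h2 := n2_mul_left hτ x y
  have h3 := n2_mul_right hτ y x
  nlinarith

lemma n2_cm_le_right (hτ : Tr τ) (x y : A) : n2 τ (cm x y) ≤ 2 * ‖y‖ * n2 τ x := by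
  rw [n2_cm_comm hτ]
  exact n2_cm_le_left hτ y x

lemma cm_add_left (x x' y : A) : cm (x + x') y = cm x y + cm x' y := by
  unfold cm; noncomm_ring

lemma cm_sub_left (x x' y : A) : cm (x - x') y = cm x y - cm x' y := by
  unfold cm; noncomm_ring

lemma cm_sub_right (x y y' : A) : cm x (y - y') = cm x y - cm x y' := by
  unfold cm; noncomm_ring

lemma cm_smul_left (c : ℂ) (x y : A) : cm (c • x) y = c • cm x y := by
  unfold cm
  rw [smul_mul_assoc, mul_smul_comm, smul_sub]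

lemma cm_sum_left {ι : Type} (s : Finset ι) (f : ι → A) (y : A) :
    cm (∑ i ∈ s, f i) y = ∑ i ∈ s, cm (f i) y := by
  unfold cm
  rw [Finset.sum_mul, Finset.mul_sum, Finset.sum_sub_distrib]

/-- orthogonality from different signs under a symmetry -/
lemma orth_of_sgn (hτ : Tr τ) {u f f' : A} (hu : IsSymm' u) {b b' : Bool} (hb : b ≠ b')
    (hf : u * f * u = (if b then (-1:ℂ) else 1) • f)
    (hf' : u * f' * u = (if b' then (-1:ℂ) else 1) • f') : τ (star f * f') = 0 := by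
  have h1 : star (u * f * u) * (u * f' * u) = u * (star f * f') * star u := by
    rw [star_mul, star_mul, hu.sa]
    have : u * (star f * u) * (u * f' * u) = u * star f * (u * u) * f' * u := by noncomm_ring
    rw [this, hu.sq]; noncomm_ring
  have h2 : τ (star (u * f * u) * (u * f' * u)) = τ (star f * f') := by
    rw [h1, tau_conj hτ u _ (by rw [hu.sa, hu.sq])]
  rw [hf, hf', star_smul, smul_mul_smul_comm, map_smul, smul_eq_mul] at h2
  have h3 : star (if b then (-1:ℂ) else 1) * (if b' then (-1:ℂ) else 1) = -1 := by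
    cases b <;> cases b' <;> simp_all
  rw [h3] at h2
  have h4 : 2 * τ (star f * f') = 0 := by linear_combination -h2
  simpa using h4

/-- Parseval for orthogonal families with unimodular coefficients -/
lemma n2_sum_sq (hτ : Tr τ) {C : Type} [DecidableEq C] (f : C → A)
    (horth : ∀ c c', c ≠ c' → τ (star (f c) * f c') = 0) (ε : C → ℂ) (hε : ∀ c, ‖ε c‖ = 1)
    (s : Finset C) : n2 τ (∑ c ∈ s, ε c • f c) ^ 2 = ∑ c ∈ s, n2 τ (f c) ^ 2 := by
  induction s using Finset.induction_on with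
  | empty => simp [n2_zero hτ]
  | insert a t ha ih =>
    rw [Finset.sum_insert ha, Finset.sum_insert ha, add_comm (ε a • f a)]
    have h1 := n2_sub_sq hτ (∑ c ∈ t, ε c • f c) (-(ε a • f a))
    rw [sub_neg_eq_add, n2_neg hτ] at h1
    have h2 : τ (star (∑ c ∈ t, ε c • f c) * -(ε a • f a)) = 0 := by
      rw [mul_neg, map_neg, mul_smul_comm, map_smul, star_sum, Finset.sum_mul, map_sum]
      rw [Finset.sum_eq_zero]
      · simp
      · intro c hc
        rw [star_smul, smul_mul_assoc, map_smul, horth c a (fun e => ha (e ▸ hc)), smul_zero]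
    rw [h1, h2, Complex.zero_re, mul_zero, sub_zero, n2_smul hτ, hε, one_mul, ih]
    ring

lemma list_sq_sum_le (m : List ℝ) : m.sum ^ 2 ≤ m.length * (m.map (fun x => x ^ 2)).sum := by
  have h1 : m.sum = ∑ i : Fin m.length, m.get i := by
    rw [← List.sum_ofFn, List.ofFn_get]
  have h2 : (m.map (fun x => x ^ 2)).sum = ∑ i : Fin m.length, (m.get i) ^ 2 := by
    rw [← List.sum_ofFn]
    congr 1
    conv_lhs => rw [← List.ofFn_get m]
    rw [List.map_ofFn]
    rfl
  rw [h1, h2]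
  have := sq_sum_le_card_mul_sum_sq (s := (Finset.univ : Finset (Fin m.length)))
    (f := fun i => m.get i)
  simpa using this

/-- the averaged unitaries -/
lemma avg_close (hτ : Tr τ) {L : ℕ} {u : Fin L → A} (hu : ∀ i, IsSymm' (u i))
    (z : (Fin L → Bool) → A) {δ : ℝ} (hδ : ∀ i, Dav τ z (u i) ≤ δ) :
    (Fintype.card (Fin L → Bool) : ℝ)⁻¹ *
      ∑ c, (2 * n2 τ (z c - AV (List.ofFn u) (z c))) ^ 2 ≤ (L : ℝ) ^ 2 * δ := by
  have hlist : ∀ s ∈ List.ofFn u, IsSymm' s := by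
    intro s hs
    rw [List.mem_ofFn] at hs
    obtain ⟨i, rfl⟩ := hs
    exact hu i
  have h1 : ∀ c, (2 * n2 τ (z c - AV (List.ofFn u) (z c))) ^ 2 ≤
      L * ∑ i, n2 τ (cm (z c) (u i)) ^ 2 := by
    intro c
    have h2 := n2_sub_AV hτ hlist (z c)
    have h3 : ((List.ofFn u).map (fun s => n2 τ (cm s (z c)))).sum =
        ∑ i, n2 τ (cm (z c) (u i)) := by
      rw [List.map_ofFn, List.sum_ofFn]
      exact Finset.sum_congr rfl fun i _ => n2_cm_comm hτ _ _
    rw [h3] at h2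
    have h4 : (∑ i, n2 τ (cm (z c) (u i))) ^ 2 ≤ L * ∑ i, n2 τ (cm (z c) (u i)) ^ 2 := by
      have := sq_sum_le_card_mul_sum_sq (s := (Finset.univ : Finset (Fin L)))
        (f := fun i => n2 τ (cm (z c) (u i)))
      simpa using this
    have h5 := n2_nonneg hτ (z c - AV (List.ofFn u) (z c))
    have h6 : 2 * n2 τ (z c - AV (List.ofFn u) (z c)) ≤ ∑ i, n2 τ (cm (z c) (u i)) := by
      linarith
    calc (2 * n2 τ (z c - AV (List.ofFn u) (z c))) ^ 2 ≤ (∑ i, n2 τ (cm (z c) (u i))) ^ 2 := by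
          gcongr
      _ ≤ _ := h4
  have hc : (0:ℝ) < (Fintype.card (Fin L → Bool) : ℝ) := by exact_mod_cast Fintype.card_pos
  calc (Fintype.card (Fin L → Bool) : ℝ)⁻¹ *
        ∑ c, (2 * n2 τ (z c - AV (List.ofFn u) (z c))) ^ 2
      ≤ (Fintype.card (Fin L → Bool) : ℝ)⁻¹ * ∑ c, (L * ∑ i, n2 τ (cm (z c) (u i)) ^ 2) := by
        gcongr with c
        exact h1 c
    _ = L * ∑ i, Dav τ z (u i) := by
        unfold Dav
        rw [← Finset.mul_sum, Finset.sum_comm, ← Finset.mul_sum]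
        ring
    _ ≤ L * ∑ _i : Fin L, δ := by
        gcongr with i
        exact hδ i
    _ = (L : ℝ) ^ 2 * δ := by
        simp only [Finset.sum_const, Finset.card_univ, Fintype.card_fin, nsmul_eq_mul]
        ring

/-- the single operator `X'` controlling the family on the commutant -/
lemma exists_X (hτ : Tr τ) {L : ℕ} {l : List A} {u : Fin L → A} {π : (Fin L → Bool) → A}
    (hT : Tower L l u π) (z : (Fin L → Bool) → A) (hz : ∀ c, z c ∈ unitary A) :
    ∃ X X' : A, ‖X'‖ ≤ 10 ∧ n2 τ (X - X') ≤ 434 / 10000 ∧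
      ∀ y, CL l y → (Fintype.card (Fin L → Bool) : ℝ)⁻¹ *
        ∑ c, n2 τ (cm (AV (List.ofFn u) (z c)) y) ^ 2 = n2 τ (cm X y) ^ 2 := by
  classical
  have hlist : ∀ s ∈ List.ofFn u, IsSymm' s := by
    intro s hs
    rw [List.mem_ofFn] at hs
    obtain ⟨i, rfl⟩ := hs
    exact hT.symm i
  have hlc : ∀ s ∈ List.ofFn u, ∀ t ∈ List.ofFn u, Commute s t := by
    intro s hs t ht
    rw [List.mem_ofFn] at hs ht
    obtain ⟨i, rfl⟩ := hs
    obtain ⟨j, rfl⟩ := ht
    exact hT.comm i j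
  set zb : (Fin L → Bool) → A := fun c => AV (List.ofFn u) (z c) with hzb
  have hzbn : ∀ c, ‖zb c‖ ≤ 1 := fun c =>
    (norm_AV_le hlist (z c)).trans (norm_uni hτ (hz c))
  have hzbc : ∀ c i, Commute (u i) (zb c) := fun c i =>
    comm_AV_self hlist hlc (z c) (u i) (by rw [List.mem_ofFn]; exact ⟨i, rfl⟩)
  set g : (Fin L → Bool) → A := fun c => zb c * π c with hg
  have hgn : ∀ c, ‖g c‖ ≤ 1 := fun c =>
    (norm_mul_le _ _).trans (mul_le_one₀ (hzbn c) (norm_nonneg _) (norm_uni hτ (hT.uni c)))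
  have hgs : ∀ c i, u i * g c * u i = (if c i then (-1:ℂ) else 1) • g c := by
    intro c i
    have h1 : u i * g c * u i = zb c * (u i * π c) * u i := by
      rw [hg]
      simp only
      rw [← mul_assoc, (hzbc c i).eq]
      noncomm_ring
    rw [h1, hT.sgn, mul_smul_comm, smul_mul_assoc]
    congr 1
    have h2 : zb c * (π c * u i) * u i = zb c * π c * (u i * u i) := by noncomm_ring
    rw [h2, (hT.symm i).sq, mul_one]
  have hne : ∀ c c' : Fin L → Bool, c ≠ c' → ∃ i, c i ≠ c' i := fun c c' h =>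
    Function.ne_iff.1 h
  have horth : ∀ c c', c ≠ c' → τ (star (g c) * g c') = 0 := by
    intro c c' h
    obtain ⟨i, hi⟩ := hne c c' h
    exact orth_of_sgn hτ (hT.symm i) hi (hgs c i) (hgs c' i)
  obtain ⟨ε, hε, hq⟩ := greedy hτ g hgn horth Finset.univ
  have hεn : ∀ c, ‖ε c‖ = 1 := by
    intro c
    rcases hε c with h | h <;> rw [h] <;> simp
  set N : ℝ := (Fintype.card (Fin L → Bool) : ℝ) with hN
  have hN0 : 0 < N := by rw [hN]; exact_mod_cast Fintype.card_pos
  set S : A := ∑ c, ε c • g c with hS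
  set r : ℝ := (Real.sqrt N)⁻¹ with hr
  have hr0 : 0 < r := by positivity
  have hr2 : r ^ 2 = N⁻¹ := by
    rw [hr, inv_pow, Real.sq_sqrt hN0.le]
  have hX4 : (τ ((star ((r : ℂ) • S) * ((r : ℂ) • S)) * (star ((r : ℂ) • S) * ((r : ℂ) • S)))).re
      ≤ 3 := by
    have h1 : (star ((r : ℂ) • S) * ((r : ℂ) • S)) * (star ((r : ℂ) • S) * ((r : ℂ) • S)) =
        ((r ^ 4 : ℝ) : ℂ) • ((star S * S) * (star S * S)) := by
      rw [star_smul, smul_mul_smul_comm, smul_mul_smul_comm]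
      congr 1
      simp only [Complex.star_def, Complex.conj_ofReal]
      push_cast
      ring
    rw [h1, map_smul, smul_eq_mul, Complex.re_ofReal_mul]
    have h2 : r ^ 4 = N⁻¹ ^ 2 := by rw [← hr2]; ring
    rw [h2]
    rw [Finset.card_univ, ← hN] at hq
    calc N⁻¹ ^ 2 * (τ ((star S * S) * (star S * S))).re ≤ N⁻¹ ^ 2 * (3 * N ^ 2) := by gcongr
      _ = 3 := by field_simp
  obtain ⟨X', hX'n, hX'⟩ := truncate hτ (R := 20) (by norm_num) hX4
  refine ⟨(r : ℂ) • S, X', by linarith, ?_, ?_⟩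
  · apply le_of_sq_le_sq _ (by norm_num)
    refine hX'.trans (by norm_num)
  · intro y hy
    set h : (Fin L → Bool) → A := fun c => cm (g c) y with hh
    have hhs : ∀ c i, u i * h c * u i = (if c i then (-1:ℂ) else 1) • h c := by
      intro c i
      have hc := hT.cu y hy i
      have h1 : u i * h c * u i = cm (u i * g c * u i) y := by
        rw [hh]
        simp only [cm]
        have e1 : u i * (g c * y - y * g c) * u i = u i * g c * (y * u i) - (u i * y) * g c * u i := by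
          noncomm_ring
        rw [e1, ← hc.eq, hc.eq]
        have e2 : u i * g c * (y * u i) = u i * g c * (u i * y) := by rw [hc.eq]
        rw [e2]
        noncomm_ring
      rw [h1, hgs, cm_smul_left]
    have horth' : ∀ c c', c ≠ c' → τ (star (h c) * h c') = 0 := by
      intro c c' hcc
      obtain ⟨i, hi⟩ := hne c c' hcc
      exact orth_of_sgn hτ (hT.symm i) hi (hhs c i) (hhs c' i)
    have hcm : cm ((r : ℂ) • S) y = (r : ℂ) • ∑ c, ε c • h c := by
      rw [cm_smul_left, hS, cm_sum_left]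
      congr 1
      exact Finset.sum_congr rfl fun c _ => cm_smul_left _ _ _
    rw [hcm, n2_smul hτ, mul_pow, n2_sum_sq hτ h horth' ε hεn]
    have hrn : ‖(r : ℂ)‖ ^ 2 = N⁻¹ := by
      rw [Complex.norm_real, Real.norm_of_nonneg hr0.le, hr2]
    rw [hrn]
    congr 1
    refine Finset.sum_congr rfl fun c _ => ?_
    have h2 : h c = cm (zb c) y * π c := by
      rw [hh]
      simp only [cm, hg]
      have hc := (hT.cp y hy c).eq
      have e1 : zb c * π c * y = zb c * (π c * y) := by noncomm_ring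
      rw [e1, hc]
      noncomm_ring
    rw [h2, n2_mul_unitary hτ _ _ (hT.uni c).2]

/-- OFFER 4c: packaging `2 ^ L` unitaries into four -/
theorem pack (hτ : Tr τ) {L : ℕ} {l : List A} {u : Fin L → A} {π : (Fin L → Bool) → A}
    (hT : Tower L l u π) (z : (Fin L → Bool) → A) (hz : ∀ c, z c ∈ unitary A) {δ : ℝ}
    (hδ : ∀ i, Dav τ z (u i) ≤ δ) (hδL : (L:ℝ) ^ 2 * δ ≤ 1 / 10 ^ 6) :
    ∃ v : Fin 4 → A, (∀ i, v i ∈ unitary A) ∧ ∀ y : A, ‖y‖ ≤ 1 →
      Dav τ z y ≤ 242 * (4 + 2 * (L:ℝ)) * (∑ i, n2 τ (cm (v i) y) ^ 2 +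
        (l.map (fun s => n2 τ (cm s y) ^ 2)).sum) + 1 / 50 := by
  classical
  obtain ⟨X, X', hX'n, hXX', hXy⟩ := exists_X hτ hT z hz
  obtain ⟨v, a, hva, ha⟩ := CStarAlgebra.exists_sum_four_unitary X'
  refine ⟨fun i => (v i : A), fun i => (v i).2, fun y hy => ?_⟩
  have hls : ∀ s ∈ l, IsSymm' s := hT.pw.symm
  set y' : A := AV l y with hy'
  have hy'n : ‖y'‖ ≤ 1 := (norm_AV_le hls y).trans hy
  have hCL : CL l y' := hT.pw.CL_AV y
  set S : ℝ := (l.map (fun s => n2 τ (cm s y))).sum with hS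
  have hS0 : 0 ≤ S := by
    rw [hS]
    apply List.sum_nonneg
    intro x hx
    rw [List.mem_map] at hx
    obtain ⟨s, _, rfl⟩ := hx
    exact n2_nonneg hτ _
  have hd : n2 τ (y - y') ≤ 1 / 2 * S := n2_sub_AV hτ hls y
  have hd0 := n2_nonneg hτ (y - y')
  set T : ℝ := ∑ i, n2 τ (cm (v i : A) y) with hTdef
  have hT0 : 0 ≤ T := Finset.sum_nonneg fun i _ => n2_nonneg hτ _
  -- the bound for `X`
  have hX1 : n2 τ (cm X' y) ≤ 5 * T := by
    have h1 : cm X' y = ∑ i, a i • cm (v i : A) y := by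
      conv_lhs => rw [hva]
      rw [cm_sum_left]
      exact Finset.sum_congr rfl fun i _ => cm_smul_left _ _ _
    rw [h1]
    refine (n2_sum hτ _ _).trans ?_
    rw [hTdef, Finset.mul_sum]
    refine Finset.sum_le_sum fun i _ => ?_
    rw [n2_smul hτ]
    have h2 : ‖a i‖ ≤ 5 := (ha i).trans (by linarith)
    exact mul_le_mul_of_nonneg_right h2 (n2_nonneg hτ _)
  have hX2 : n2 τ (cm X' (y - y')) ≤ 10 * S := by
    refine (n2_cm_le_left hτ _ _).trans ?_
    have h1 : 2 * ‖X'‖ ≤ 20 := by linarith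
    calc 2 * ‖X'‖ * n2 τ (y - y') ≤ 20 * (1 / 2 * S) := by gcongr
      _ = 10 * S := by ring
  have hX3 : n2 τ (cm (X - X') y') ≤ 868 / 10000 := by
    refine (n2_cm_le_right hτ _ _).trans ?_
    have h0 := n2_nonneg hτ (X - X')
    calc 2 * ‖y'‖ * n2 τ (X - X') ≤ 2 * 1 * (434 / 10000) := by gcongr
      _ = 868 / 10000 := by norm_num
  have hXb : n2 τ (cm X y') ≤ 5 * T + 10 * S + 868 / 10000 := by
    have e1 : cm X y' = (cm X' y - cm X' (y - y')) + cm (X - X') y' := by
      unfold cm; noncomm_ring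
    rw [e1]
    have h1 := n2_add hτ (cm X' y - cm X' (y - y')) (cm (X - X') y')
    have h2 := n2_sub hτ (cm X' y) (cm X' (y - y'))
    linarith
  have hX0 := n2_nonneg hτ (cm X y')
  -- Minkowski
  have hm1 : (Fintype.card (Fin L → Bool) : ℝ)⁻¹ *
      ∑ c, n2 τ (cm (AV (List.ofFn u) (z c)) y') ^ 2 ≤ n2 τ (cm X y') ^ 2 := (hXy y' hCL).le
  have hm2 : (Fintype.card (Fin L → Bool) : ℝ)⁻¹ *
      ∑ c, (2 * n2 τ (z c - AV (List.ofFn u) (z c))) ^ 2 ≤ (1 / 1000) ^ 2 := by
    refine (avg_close hτ hT.symm z hδ).trans (hδL.trans (by norm_num))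
  have hm3 : (Fintype.card (Fin L → Bool) : ℝ)⁻¹ * ∑ _c : Fin L → Bool, S ^ 2 ≤ S ^ 2 := by
    have hc : (0:ℝ) < (Fintype.card (Fin L → Bool) : ℝ) := by exact_mod_cast Fintype.card_pos
    rw [Finset.sum_const, Finset.card_univ, nsmul_eq_mul]
    apply le_of_eq
    field_simp
  have hm12 := mink hX0 (by norm_num : (0:ℝ) ≤ 1 / 1000) hm1 hm2
  have hm123 := mink (by positivity : 0 ≤ n2 τ (cm X y') + 1 / 1000) hS0 hm12 hm3
  have hD : Dav τ z y ≤ (n2 τ (cm X y') + 1 / 1000 + S) ^ 2 := by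
    refine le_trans ?_ hm123
    unfold Dav
    gcongr with c
    · exact n2_nonneg hτ _
    · have e1 : cm (z c) y = (cm (AV (List.ofFn u) (z c)) y' +
          cm (z c - AV (List.ofFn u) (z c)) y') + cm (z c) (y - y') := by
        unfold cm; noncomm_ring
      rw [e1]
      refine (n2_add hτ _ _).trans (add_le_add ((n2_add hτ _ _).trans (add_le_add le_rfl ?_)) ?_)
      · refine (n2_cm_le_right hτ _ _).trans ?_
        have h0 := n2_nonneg hτ (z c - AV (List.ofFn u) (z c))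
        nlinarith
      · refine (n2_cm_le_left hτ _ _).trans ?_
        have h0 := norm_uni hτ (hz c)
        have h1 : 2 * ‖z c‖ ≤ 2 := by linarith
        calc 2 * ‖z c‖ * n2 τ (y - y') ≤ 2 * (1 / 2 * S) := by gcongr
          _ = S := by ring
  -- the numerical end
  have hD2 : Dav τ z y ≤ (11 * (T + S) + 878 / 10000) ^ 2 := by
    refine hD.trans ?_
    have h1 : n2 τ (cm X y') + 1 / 1000 + S ≤ 11 * (T + S) + 878 / 10000 := by linarith
    gcongr
  have hcs : (T + S) ^ 2 ≤ (4 + 2 * (L:ℝ)) * (∑ i, n2 τ (cm (v i : A) y) ^ 2 +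
      (l.map (fun s => n2 τ (cm s y) ^ 2)).sum) := by
    have h1 := list_sq_sum_le (List.ofFn (fun i => n2 τ (cm (v i : A) y)) ++
      l.map (fun s => n2 τ (cm s y)))
    rw [List.sum_append, List.sum_ofFn, List.map_append, List.sum_append, List.map_ofFn,
      List.sum_ofFn, List.map_map, List.length_append, List.length_ofFn, List.length_map,
      hT.len] at h1
    refine h1.trans (le_of_eq ?_)
    push_cast
    rfl
  have h2 : (11 * (T + S) + 878 / 10000) ^ 2 ≤ 242 * (T + S) ^ 2 + 1 / 50 := by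
    nlinarith [sq_nonneg (11 * (T + S) - 878 / 10000)]
  nlinarith

end Pool.Agent.Helper70.Gam
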